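import Pool.Agent.Helper14K9.PJ.Stm

/-! # Project PJ, LIM (helper45): the limit of the quotients of the sums of `1 / (y - h)` -/

set_option autoImplicit false

namespace Pool.Agent.Helper45K9.PJ

open Pool.Agent.Helper14K9.PJ
open Polynomial

section alg

variable {K : Type*} [Field K]

theorem comp_shift (G : AddSubgroup K) (s : Finset K) (hs : ∀ x, x ∈ s ↔ x ∈ G) (g : K)
    (hg : g ∈ G) :
    (∏ h ∈ s, (X - C h)).comp (X + C g) = ∏ h ∈ s, (X - C h) := by
  rw [Polynomial.prod_comp]
  refine Finset.prod_nbij' (fun h => h - g) (fun h => h + g) ?_ ?_ ?_ ?_ ?_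
  · intro a ha
    exact (hs _).2 (G.sub_mem ((hs _).1 ha) hg)
  · intro a ha
    exact (hs _).2 (G.add_mem ((hs _).1 ha) hg)
  · intro a _
    ring
  · intro a _
    ring
  · intro a _
    simp only [sub_comp, X_comp, C_comp, map_sub]
    ring

theorem der_const (G : AddSubgroup K) (s : Finset K) (hs : ∀ x, x ∈ s ↔ x ∈ G) (y : K) :
    (derivative (∏ h ∈ s, (X - C h))).eval y = (derivative (∏ h ∈ s, (X - C h))).eval 0 := by
  set P : K[X] := ∏ h ∈ s, (X - C h) with hP
  have h0 : (0 : K) ∈ s := (hs 0).2 G.zero_mem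
  have hc : 0 < s.card := Finset.card_pos.2 ⟨0, h0⟩
  have hdeg : P.natDegree = s.card := by
    rw [hP, Polynomial.natDegree_prod_of_monic _ _ fun i _ => monic_X_sub_C i]
    simp
  have hder : ∀ g ∈ s, (derivative P).eval g = (derivative P).eval 0 := by
    intro g hg
    have h1 := congrArg derivative (comp_shift G s hs g ((hs g).1 hg))
    rw [← hP, derivative_comp] at h1
    have h2 := congrArg (Polynomial.eval 0) h1
    simpa [eval_comp] using h2
  have hQ : derivative P - C ((derivative P).eval 0) = 0 := by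
    refine Polynomial.eq_zero_of_natDegree_lt_card_of_eval_eq_zero' _ s ?_ ?_
    · intro g hg
      rw [eval_sub, eval_C, hder g hg, sub_self]
    · refine lt_of_le_of_lt (Polynomial.natDegree_sub_le _ _) ?_
      rw [natDegree_C]
      refine max_lt ?_ hc
      refine lt_of_le_of_lt (Polynomial.natDegree_derivative_le P) ?_
      omega
  rw [sub_eq_zero.1 hQ, eval_C, eval_C]

theorem der_eval [DecidableEq K] (s : Finset K) (y : K) : (derivative (∏ h ∈ s, (X - C h))).eval y =
    ∑ b ∈ s, ∏ a ∈ s.erase b, (y - a) := by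
  rw [derivative_prod_finset, eval_finsetSum]
  refine Finset.sum_congr rfl fun b _ => ?_
  rw [eval_mul, eval_prod]
  simp

theorem der_zero (s : Finset K) (h0 : (0 : K) ∈ s) :
    (derivative (∏ h ∈ s, (X - C h))).eval 0 ≠ 0 := by
  classical
  rw [der_eval, Finset.sum_eq_single 0]
  · rw [Finset.prod_ne_zero_iff]
    intro a ha
    rw [zero_sub]
    exact neg_ne_zero.2 (Finset.ne_of_mem_erase ha)
  · intro b _ hb
    exact Finset.prod_eq_zero (Finset.mem_erase.2 ⟨hb.symm, h0⟩) (sub_self 0)
  · intro h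
    exact absurd h0 h

theorem sig_mul (s : Finset K) (y : K) (hy : y ∉ s) :
    (∑ h ∈ s, (y - h)⁻¹) * ∏ h ∈ s, (y - h) = (derivative (∏ h ∈ s, (X - C h))).eval y := by
  classical
  rw [der_eval, Finset.sum_mul]
  refine Finset.sum_congr rfl fun b hb => ?_
  rw [← Finset.mul_prod_erase s _ hb, ← mul_assoc, inv_mul_cancel₀, one_mul]
  intro h
  rw [sub_eq_zero] at h
  exact hy (h ▸ hb)

/-- the quotient of the two sums is the inverse quotient of the two products -/
theorem sig_div (G : AddSubgroup K) (s : Finset K) (hs : ∀ x, x ∈ s ↔ x ∈ G) (y z : K)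
    (hy : y ∉ s) (hz : z ∉ s) :
    (∑ h ∈ s, (y - h)⁻¹) / (∑ h ∈ s, (z - h)⁻¹) = ∏ h ∈ s, ((z - h) / (y - h)) := by
  have hc : (derivative (∏ h ∈ s, (X - C h))).eval 0 ≠ 0 := der_zero s ((hs 0).2 G.zero_mem)
  have h1 := sig_mul s y hy
  have h2 := sig_mul s z hz
  rw [der_const G s hs] at h1 h2
  have hPy : ∏ h ∈ s, (y - h) ≠ 0 := fun h => hc (by rw [← h1, h, mul_zero])
  have hPz : ∏ h ∈ s, (z - h) ≠ 0 := fun h => hc (by rw [← h2, h, mul_zero])
  have hsz : ∑ h ∈ s, (z - h)⁻¹ ≠ 0 := fun h => hc (by rw [← h2, h, zero_mul])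
  rw [Finset.prod_div_distrib, div_eq_div_iff hsz hPy, h1, mul_comm, h2]

end alg

section lim

variable {p : ℕ} [Fact p.Prime]

theorem vle_add {N : ℤ} {z w : LaurentSeries (ZMod p)} (hz : Vle N z) (hw : Vle N w) :
    Vle N (z + w) := by
  intro n hn
  rw [HahnSeries.coeff_add, hz n hn, hw n hn, add_zero]

theorem vle_mono {N M : ℤ} (h : M ≤ N) {z : LaurentSeries (ZMod p)} (hz : Vle N z) : Vle M z :=
  fun n hn => hz n (lt_of_lt_of_le hn h)

theorem vle_order {N : ℤ} {z : LaurentSeries (ZMod p)} (hz : Vle N z) (h0 : z ≠ 0) :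
    N ≤ z.order := by
  by_contra h
  exact h0 (HahnSeries.coeff_order_eq_zero.1 (hz _ (not_le.1 h)))

theorem order_vle {N : ℤ} {z : LaurentSeries (ZMod p)} (h : N ≤ z.order) : Vle N z :=
  fun _ hn => HahnSeries.coeff_eq_zero_of_lt_order (lt_of_lt_of_le hn h)

theorem vle_mul {N M : ℤ} {z w : LaurentSeries (ZMod p)} (hz : Vle N z) (hw : Vle M w) :
    Vle (N + M) (z * w) := by
  by_cases h1 : z = 0
  · intro n _
    rw [h1, zero_mul, HahnSeries.coeff_zero]
  by_cases h2 : w = 0
  · intro n _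
    rw [h2, mul_zero, HahnSeries.coeff_zero]
  refine order_vle ?_
  rw [HahnSeries.order_mul h1 h2]
  exact add_le_add (vle_order hz h1) (vle_order hw h2)

/-- `u l` goes to `a` if `l` goes to infinity -/
def Lm (u : LaurentSeries (ZMod p) → LaurentSeries (ZMod p)) (a : LaurentSeries (ZMod p)) : Prop :=
  ∀ N : ℤ, ∃ M : ℤ, ∀ l : LaurentSeries (ZMod p), l ≠ 0 → l.order < M → Vle N (u l - a)

theorem lm_mul {u v : LaurentSeries (ZMod p) → LaurentSeries (ZMod p)}
    {a b : LaurentSeries (ZMod p)} (hu : Lm u a) (hv : Lm v b) :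
    Lm (fun l => u l * v l) (a * b) := by
  intro N
  obtain ⟨M1, h1⟩ := hu (max 0 (max N (N - b.order)))
  obtain ⟨M2, h2⟩ := hv (max 0 (max N (N - a.order)))
  refine ⟨min M1 M2, fun l hl hm => ?_⟩
  have e1 := h1 l hl (lt_of_lt_of_le hm (min_le_left _ _))
  have e2 := h2 l hl (lt_of_lt_of_le hm (min_le_right _ _))
  have key : u l * v l - a * b = (u l - a) * (v l - b) + (a * (v l - b) + b * (u l - a)) := by ring
  rw [key]
  refine vle_add (vle_mono ?_ (vle_mul e1 e2)) (vle_add (vle_mono ?_ (vle_mul (order_vle le_rfl) e2))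
    (vle_mono ?_ (vle_mul (order_vle le_rfl) e1)))
  · have := le_max_left 0 (max N (N - b.order))
    have := le_max_right 0 (max N (N - b.order))
    have := le_max_left N (N - b.order)
    have := le_max_left 0 (max N (N - a.order))
    omega
  · have := le_max_right 0 (max N (N - a.order))
    have := le_max_right N (N - a.order)
    omega
  · have := le_max_right 0 (max N (N - b.order))
    have := le_max_right N (N - b.order)
    omega

theorem lm_fac (x h : LaurentSeries (ZMod p)) : Lm (fun l => (l * x - h) / (l - h)) x := by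
  intro N
  by_cases h0 : h = 0
  · refine ⟨0, fun l hl _ => ?_⟩
    subst h0
    intro n _
    change ((l * x - 0) / (l - 0) - x).coeff n = 0
    rw [sub_zero, sub_zero, mul_div_cancel_left₀ _ hl, sub_self, HahnSeries.coeff_zero]
  refine ⟨min h.order ((h * (x - 1)).order - N), fun l hl hm => ?_⟩
  have hm1 : l.order < h.order := lt_of_lt_of_le hm (min_le_left _ _)
  have hm2 : l.order < (h * (x - 1)).order - N := lt_of_lt_of_le hm (min_le_right _ _)
  have hcf : (l - h).coeff l.order ≠ 0 := by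
    rw [HahnSeries.coeff_sub, HahnSeries.coeff_eq_zero_of_lt_order hm1, sub_zero]
    exact fun hh => hl (HahnSeries.coeff_order_eq_zero.1 hh)
  have hne : l - h ≠ 0 := by
    intro hh
    rw [hh, HahnSeries.coeff_zero] at hcf
    exact hcf rfl
  have hle : (l - h).order ≤ l.order := HahnSeries.order_le_of_coeff_ne_zero hcf
  set e := (l * x - h) / (l - h) - x with he
  have hmul : e * (l - h) = h * (x - 1) := by
    rw [he, sub_mul, div_mul_cancel₀ _ hne]
    ring
  by_cases h1 : e = 0
  · intro n _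
    change e.coeff n = 0
    rw [h1, HahnSeries.coeff_zero]
  refine order_vle ?_
  have h2 := HahnSeries.order_mul h1 hne
  rw [hmul] at h2
  change N ≤ e.order
  omega

theorem lm_prod (x : LaurentSeries (ZMod p)) (s : Finset (LaurentSeries (ZMod p))) :
    Lm (fun l => ∏ h ∈ s, ((l * x - h) / (l - h))) (x ^ s.card) := by
  classical
  induction s using Finset.induction with
  | empty =>
    intro N
    refine ⟨0, fun l _ _ => ?_⟩
    intro n _
    change ((∏ h ∈ ∅, ((l * x - h) / (l - h))) - _ ^ _ : LaurentSeries (ZMod p)).coeff n = 0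
    rw [Finset.prod_empty, Finset.card_empty, pow_zero, sub_self, HahnSeries.coeff_zero]
  | insert a s ha ih =>
    intro N
    obtain ⟨M, hM⟩ := lm_mul (lm_fac x a) ih N
    refine ⟨M, fun l hl hm => ?_⟩
    have := hM l hl hm
    change Vle N ((∏ h ∈ insert a s, ((l * x - h) / (l - h))) - x ^ (insert a s).card)
    rw [Finset.prod_insert ha, Finset.card_insert_of_notMem ha, pow_succ, mul_comm (x ^ s.card)]
    exact this

theorem ev_notMem (s : Finset (LaurentSeries (ZMod p))) (h0 : (0 : LaurentSeries (ZMod p)) ∈ s) :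
    ∃ M : ℤ, ∀ y : LaurentSeries (ZMod p), y.order < M → y ∉ s := by
  refine ⟨s.inf' ⟨0, h0⟩ fun h => h.order, fun y hy hm => ?_⟩
  exact absurd (Finset.inf'_le (fun h : LaurentSeries (ZMod p) => h.order) hm) (not_le.2 hy)

end lim

theorem lim : S_LIM := by
  intro p _ G hfin x hx N
  obtain ⟨M, hM⟩ := lm_prod x hfin.toFinset N
  have hs : ∀ y, y ∈ hfin.toFinset ↔ y ∈ G := fun y => by simp
  obtain ⟨M1, hM1⟩ := ev_notMem hfin.toFinset ((hs 0).2 G.zero_mem)
  refine ⟨min M (min M1 (M1 - x.order)), fun l hl hm => ?_⟩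
  have a1 : l.order < M := lt_of_lt_of_le hm (min_le_left _ _)
  have a2 : l.order < M1 := lt_of_lt_of_le hm ((min_le_right _ _).trans (min_le_left _ _))
  have a3 : l.order < M1 - x.order := lt_of_lt_of_le hm ((min_le_right _ _).trans (min_le_right _ _))
  have hlx : (l * x).order < M1 := by
    rw [HahnSeries.order_mul hl hx]
    omega
  rw [finsum_mem_eq_finite_toFinset_sum _ hfin, finsum_mem_eq_finite_toFinset_sum _ hfin,
    sig_div G hfin.toFinset hs l (l * x) (hM1 l a2) (hM1 _ hlx), Set.ncard_eq_toFinset_card _ hfin]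
  exact hM l hl a1

end Pool.Agent.Helper45K9.PJ
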